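import Pool.Agent.Helper12_UNF.Stmts

set_option autoImplicit false

/-! # Squad UNF, module CLO: products of parabolic subgroups are closed -/

namespace Unf
namespace H48

open Art

/-- Separation from the product of two retracts. -/
theorem sep {G W : Type} [Group G] [Group W] [Finite W] (q : G →* W) (A B : Subgroup G)
    (rA rB : q.ker →* q.ker) (hA1 : ∀ x, (rA x).1 ∈ A) (hA2 : ∀ x : q.ker, x.1 ∈ A → rA x = x)
    (hA3 : ∀ x : q.ker, x.1 ∈ B → (rA x).1 ∈ B) (hB1 : ∀ x, (rB x).1 ∈ B)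
    (hB2 : ∀ x : q.ker, x.1 ∈ B → rB x = x) (hRF : RF G) (y : G)
    (hy : ∀ u ∈ A, ∀ v ∈ B, y ≠ u * v) :
    ∃ N : Subgroup G, N.Normal ∧ N.FiniteIndex ∧
      ∀ u ∈ A, u ∈ q.ker → ∀ v ∈ B, v ∈ q.ker → ∀ n ∈ N, y ≠ u * v * n := by
  by_cases hq : q y = 1
  swap
  · haveI : Finite q.range := inferInstance
    refine ⟨q.ker, inferInstance, Subgroup.finiteIndex_ker q, ?_⟩
    rintro u - hu v - hv n hn rfl
    apply hq
    rw [map_mul, map_mul, MonoidHom.mem_ker.1 hu, MonoidHom.mem_ker.1 hv, MonoidHom.mem_ker.1 hn]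
    simp
  · let Y : q.ker := ⟨y, hq⟩
    let f : q.ker → q.ker := fun x => (rB (rA x))⁻¹ * rB x * x⁻¹ * rA x
    have hf : ∀ x, f x = rB ((rA x)⁻¹ * x) * ((rA x)⁻¹ * x)⁻¹ := by
      intro x
      simp only [f, map_mul, map_inv, mul_inv_rev, inv_inv, mul_assoc]
    have hY : (f Y).1 ≠ 1 := by
      intro h
      have h1 : f Y = 1 := Subtype.ext h
      rw [hf, mul_inv_eq_one] at h1
      apply hy (rA Y).1 (hA1 Y) ((rA Y)⁻¹ * Y).1
      · rw [← h1]; exact hB1 _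
      · show y = (rA Y).1 * ((rA Y).1⁻¹ * y)
        rw [mul_inv_cancel_left]
    obtain ⟨H, hHY⟩ := @Group.exists_finiteIndexNormalSubgroup_notMem G _ hRF _ hY
    haveI : H.toSubgroup.Normal := inferInstance
    haveI : H.toSubgroup.FiniteIndex := inferInstance
    let φ : q.ker →* G ⧸ H.toSubgroup := (QuotientGroup.mk' H.toSubgroup).comp q.ker.subtype
    let L : Subgroup q.ker := φ.ker ⊓ (φ.comp rA).ker ⊓ ((φ.comp rB).ker ⊓
      ((φ.comp rB).comp rA).ker)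
    haveI hL : L.FiniteIndex := by
      haveI := Subgroup.finiteIndex_ker φ
      haveI := Subgroup.finiteIndex_ker (φ.comp rA)
      haveI := Subgroup.finiteIndex_ker (φ.comp rB)
      haveI := Subgroup.finiteIndex_ker ((φ.comp rB).comp rA)
      infer_instance
    haveI hK : q.ker.FiniteIndex := Subgroup.finiteIndex_ker q
    haveI hLm : (L.map q.ker.subtype).FiniteIndex := by
      constructor
      rw [Subgroup.index_map_subtype]
      exact mul_ne_zero hL.index_ne_zero hK.index_ne_zero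
    refine ⟨(L.map q.ker.subtype).normalCore, inferInstance, inferInstance, ?_⟩
    rintro u hu hu' v hv hv' n hn e
    obtain ⟨l, hl, rfl⟩ := Subgroup.normalCore_le _ hn
    let u' : q.ker := ⟨u, hu'⟩
    let v' : q.ker := ⟨v, hv'⟩
    have e1 : Y = u' * v' * l := Subtype.ext e
    have hl' : φ l = 1 ∧ φ (rA l) = 1 ∧ φ (rB l) = 1 ∧ φ (rB (rA l)) = 1 := by
      obtain ⟨⟨h1, h2⟩, h3, h4⟩ := hl
      exact ⟨h1, h2, h3, h4⟩
    have hfuv : f (u' * v') = 1 := by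
      have h1 : (rA (u' * v'))⁻¹ * (u' * v') = (rA v')⁻¹ * v' := by
        rw [map_mul, hA2 u' hu]
        group
      rw [hf, h1, hB2, mul_inv_cancel]
      exact B.mul_mem (B.inv_mem (hA3 v' hv)) hv
    have hφ : φ (f Y) = φ (f (u' * v')) := by
      rw [e1]
      simp only [f, map_mul, map_inv, hl'.1, hl'.2.1, hl'.2.2.1, hl'.2.2.2, mul_one, inv_one,
        mul_inv_rev, one_mul]
    rw [hfuv, map_one] at hφ
    exact hHY ((QuotientGroup.eq_one_iff _).1 hφ)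

theorem clo (hR : RtrStmt) (hQ : QuoStmt) : CloStmt := by
  classical
  intro S _ M hW hRF U V z hz
  obtain ⟨q, hq⟩ := hQ M
  obtain ⟨rA, hA1, hA2, hA3⟩ := hR M U q hq
  obtain ⟨rB, hB1, hB2, hB3⟩ := hR M V q hq
  have hmono : P M (U ∩ V) ≤ P M V :=
    Subgroup.closure_mono (Set.image_mono Set.inter_subset_right)
  -- lifts
  have hlift : ∀ (D : Set S) (w : M.Group), ∃ a ∈ P M D, (∃ u ∈ P M D, q u = w) → q a = w := by
    intro D w
    by_cases h : ∃ u ∈ P M D, q u = w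
    · obtain ⟨u, hu, huw⟩ := h
      exact ⟨u, hu, fun _ => huw⟩
    · exact ⟨1, (P M D).one_mem, fun h' => absurd h' h⟩
  choose a ha1 ha2 using hlift U
  choose b hb1 hb2 using hlift V
  have hsep : ∀ w : M.Group × M.Group, ∃ N : Subgroup (Gp M), N.Normal ∧ N.FiniteIndex ∧
      ∀ u ∈ P M U, u ∈ q.ker → ∀ v ∈ P M V, v ∈ q.ker → ∀ n ∈ N,
        (a w.1)⁻¹ * z * (b w.2)⁻¹ ≠ u * v * n := by
    intro w
    apply sep q (P M U) (P M V) rA rB hA1 hA2 (fun x hx => hmono (hA3 V x hx)) hB1 hB2 hRF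
    intro u hu v hv e
    apply hz (a w.1 * u) ((P M U).mul_mem (ha1 _) hu) (v * b w.2) ((P M V).mul_mem hv (hb1 _))
    calc z = a w.1 * ((a w.1)⁻¹ * z * (b w.2)⁻¹) * b w.2 := by group
      _ = a w.1 * u * (v * b w.2) := by rw [e]; group
  choose N hN1 hN2 hN3 using hsep
  refine ⟨⨅ w, N w, Subgroup.normal_iInf_normal hN1, Subgroup.finiteIndex_iInf hN2, ?_⟩
  intro u hu v hv n hn e
  have hau : q (a (q u)) = q u := ha2 _ ⟨u, hu, rfl⟩
  have hbv : q (b (q v)) = q v := hb2 _ ⟨v, hv, rfl⟩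
  have hnw : n ∈ N (q u, q v) := Subgroup.mem_iInf.1 hn _
  apply hN3 (q u, q v) ((a (q u))⁻¹ * u) ((P M U).mul_mem ((P M U).inv_mem (ha1 _)) hu)
    (by rw [MonoidHom.mem_ker, map_mul, map_inv, hau, inv_mul_cancel])
    (v * (b (q v))⁻¹) ((P M V).mul_mem hv ((P M V).inv_mem (hb1 _)))
    (by rw [MonoidHom.mem_ker, map_mul, map_inv, hbv, mul_inv_cancel])
    (b (q v) * n * (b (q v))⁻¹) ((hN1 (q u, q v)).conj_mem n hnw _)
  show (a (q u))⁻¹ * z * (b (q v))⁻¹ = _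
  rw [e]
  group

end H48
end Unf
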