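import Pool.Agent.Helper12_UNF.Stmts

set_option autoImplicit false

/-! # Squad UNF, module COL: detectors from colourings -/

namespace Unf
namespace H48

open Art

theorem pmono {S : Type} (M : CoxeterMatrix S) {D U : Set S} (h : D ⊆ U) :
    P M D ≤ P M U := Subgroup.closure_mono (Set.image_mono h)

/-- Preimages of closed sets are closed. -/
theorem closed_comap {G H : Type} [Group G] [Group H] (θ : G →* H) (X : Set H)
    (h : ∀ z, z ∉ X → ∃ N : Subgroup H, N.Normal ∧ N.FiniteIndex ∧ ∀ n ∈ N, z * n ∉ X) :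
    ClosedIn {g : G | θ g ∈ X} := by
  intro z hz
  obtain ⟨N, h1, h2, h3⟩ := h (θ z) hz
  refine ⟨N.comap θ, h1.comap θ, ?_, ?_⟩
  · have := h2
    have hk : N.comap θ = ((QuotientGroup.mk' N).comp θ).ker := by
      rw [← MonoidHom.comap_ker, QuotientGroup.ker_mk']
    rw [hk]
    exact Subgroup.finiteIndex_ker _
  · intro n hn hzn
    have : θ (z * n) ∈ X := hzn
    rw [map_mul] at this
    exact h3 _ hn this

theorem col (hI : InjStmt) (hA : AdcStmt) : ColStmt := by
  classical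
  intro S _ M C S' _ M' θ f hθ hf hfC hcl
  let good : S → Prop := fun s => f s ≠ none ∧ ∀ t, t ≠ s → M.M s t ≠ 0 → f t ≠ f s
  let H : S → Subgroup (Gp M') := fun s => if good s then P M' {z | some z ≠ f s} else ⊤
  have hH1 : ∀ s, good s → H s = P M' {z | some z ≠ f s} := fun s h => if_pos h
  have hH2 : ∀ s, ¬ good s → H s = ⊤ := fun s h => if_neg h
  have hset : ∀ s x, f s = some x → {z | some z ≠ f s} = {z : S' | z ≠ x} := by
    intro s x h
    ext z
    simp only [Set.mem_ofPred_eq, h, ne_eq, Option.some.injEq]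
  -- data for a generator of the clique
  have key : ∀ s ∈ C, ∃ x, f s = some x ∧ H s = P M' {z | z ≠ x} := by
    intro s hs
    have hg : good s := ⟨(hfC s hs).1, (hfC s hs).2⟩
    obtain ⟨x, hx⟩ := Option.ne_none_iff_exists'.1 hg.1
    exact ⟨x, hx, by rw [hH1 s hg, hset s x hx]⟩
  have inj : ∀ x0 : S', (∀ a ∈ P M C, θ a = 1 → a = 1) ∧
      (∀ C' ⊆ C, ∀ z ∈ P M' ((fun t => (f t).getD x0) '' C'), ∃ a ∈ P M C', θ a = z) ∧
      (∀ C' ⊆ C, ∀ a ∈ P M C', θ a ∈ P M' ((fun t => (f t).getD x0) '' C')) := by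
    intro x0
    apply hI M M' θ C (fun t => (f t).getD x0)
    · intro s hs
      obtain ⟨x, hx, -⟩ := key s hs
      rw [hθ, hx]
      rfl
    · intro s hs t ht hst
      obtain ⟨x, hx, -⟩ := key s hs
      obtain ⟨y, hy, -⟩ := key t ht
      have := hf s hs t ht hst x y hx hy
      simp only [hx, hy, Option.getD_some]
      exact this
  have himg : ∀ (x0 : S') (s : S) (x : S'), s ∈ C → f s = some x →
      (fun t => (f t).getD x0) '' C ∩ {z | z ≠ x} ⊆ (fun t => (f t).getD x0) '' (C \ {s}) := by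
    rintro x0 s x hs hx z ⟨⟨t, ht, rfl⟩, hz⟩
    refine ⟨t, ⟨ht, ?_⟩, rfl⟩
    rintro rfl
    apply hz
    simp only [hx, Option.getD_some]
  refine ⟨fun s => (H s).comap θ, fun s t => {g | θ g ∈ {h | ∃ u ∈ H s, ∃ v ∈ H t, h = u * v}},
    ?_, ?_, ?_, ?_, ?_, ?_⟩
  · intro s t hst hM
    refine ⟨?_, 1, (H s).one_mem, 1, (H t).one_mem, by rw [map_one, one_mul]⟩
    show θ (gen M t) ∈ H s
    by_cases hg : good s
    · rw [hH1 s hg, hθ]
      rcases hft : f t with _ | z
      · exact Subgroup.one_mem _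
      · apply Subgroup.subset_closure
        refine ⟨z, ?_, rfl⟩
        show some z ≠ f s
        rw [← hft]
        exact hg.2 t (Ne.symm hst) hM
    · rw [hH2 s hg]
      exact Subgroup.mem_top _
  · rintro s t x ⟨u, hu, v, hv, e⟩
    refine ⟨⟨v⁻¹, (H t).inv_mem hv, u⁻¹, (H s).inv_mem hu, ?_⟩, ?_⟩
    · rw [map_inv, e, mul_inv_rev]
    · intro a ha b hb
      refine ⟨θ a * u, (H s).mul_mem ha hu, v * θ b, (H t).mul_mem hv hb, ?_⟩
      rw [map_mul, map_mul, e]
      group
  · intro s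
    show ClosedIn {g | θ g ∈ (H s : Set (Gp M'))}
    apply closed_comap
    intro z hz
    by_cases hg : good s
    · obtain ⟨x, hx⟩ := Option.ne_none_iff_exists'.1 hg.1
      have e : H s = P M' {z | z ≠ x} := by rw [hH1 s hg, hset s x hx]
      rw [e] at hz ⊢
      obtain ⟨N, h1, h2, h3⟩ := hcl x x z (by
        intro u hu v hv e'
        apply hz
        rw [e']
        exact Subgroup.mul_mem _ hu hv)
      refine ⟨N, h1, h2, ?_⟩
      intro n hn hzn
      exact h3 (z * n) hzn 1 (Subgroup.one_mem _) n⁻¹ (N.inv_mem hn) (by group)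
    · rw [hH2 s hg] at hz
      exact absurd (Subgroup.mem_top z) hz
  · intro s t _ _
    apply closed_comap
    intro z hz
    by_cases hs : good s
    · by_cases ht : good t
      · obtain ⟨x, hx⟩ := Option.ne_none_iff_exists'.1 hs.1
        obtain ⟨y, hy⟩ := Option.ne_none_iff_exists'.1 ht.1
        have e1 : H s = P M' {z | z ≠ x} := by rw [hH1 s hs, hset s x hx]
        have e2 : H t = P M' {z | z ≠ y} := by rw [hH1 t ht, hset t y hy]
        rw [e1, e2] at hz ⊢
        obtain ⟨N, h1, h2, h3⟩ := hcl x y z (fun u hu v hv e' => hz ⟨u, hu, v, hv, e'⟩)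
        refine ⟨N, h1, h2, ?_⟩
        rintro n hn ⟨u, hu, v, hv, e'⟩
        exact h3 u hu v hv n⁻¹ (N.inv_mem hn) (by rw [← e']; group)
      · exfalso
        apply hz
        refine ⟨1, Subgroup.one_mem _, z, ?_, (one_mul z).symm⟩
        rw [hH2 t ht]
        exact Subgroup.mem_top _
    · exfalso
      apply hz
      refine ⟨z, ?_, 1, Subgroup.one_mem _, (mul_one z).symm⟩
      rw [hH2 s hs]
      exact Subgroup.mem_top _
  · intro s hs a ha haS
    obtain ⟨x, hx, hHx⟩ := key s hs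
    obtain ⟨i1, i2, i3⟩ := inj x
    have h1 : θ a ∈ P M' {z | z ≠ x} := by rw [← hHx]; exact haS
    have h2 := i3 C subset_rfl a ha
    obtain ⟨p, hp, r, hr, e⟩ := hA M' _ {z | z ≠ x} ∅ (θ a) (θ a) 1 h2 h1
      (Subgroup.one_mem _) (mul_one _).symm
    have hr1 : r = 1 := by
      have : P M' ((fun t => (f t).getD x) '' C ∩ ∅) = ⊥ := by
        unfold P
        rw [Set.inter_empty, Set.image_empty, Subgroup.closure_empty]
      rw [this] at hr
      exact Subgroup.mem_bot.1 hr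
    rw [hr1, mul_one] at e
    rw [← e] at hp
    obtain ⟨a', ha', e'⟩ := i2 (C \ {s}) Set.sdiff_subset (θ a)
      (pmono M' (himg x s x hs hx) hp)
    have : a⁻¹ * a' = 1 := by
      apply i1
      · exact Subgroup.mul_mem _ (Subgroup.inv_mem _ ha) (pmono M Set.sdiff_subset ha')
      · rw [map_mul, map_inv, e', inv_mul_cancel]
    rw [inv_mul_eq_one.1 this]
    exact ha'
  · rintro s hs t ht - a ha ⟨u, hu, v, hv, e0⟩
    obtain ⟨x, hx, hHx⟩ := key s hs
    obtain ⟨y, hy, hHy⟩ := key t ht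
    obtain ⟨i1, i2, i3⟩ := inj x
    rw [hHx] at hu
    rw [hHy] at hv
    obtain ⟨p, hp, r, hr, e⟩ := hA M' _ {z | z ≠ x} {z | z ≠ y} (θ a) u v
      (i3 C subset_rfl a ha) hu hv e0
    obtain ⟨b, hb, eb⟩ := i2 (C \ {s}) Set.sdiff_subset p (pmono M' (himg x s x hs hx) hp)
    obtain ⟨c, hc, ec⟩ := i2 (C \ {t}) Set.sdiff_subset r (pmono M' (himg x t y ht hy) hr)
    refine ⟨b, hb, c, hc, ?_⟩
    have : a⁻¹ * (b * c) = 1 := by
      apply i1
      · exact Subgroup.mul_mem _ (Subgroup.inv_mem _ ha)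
          (Subgroup.mul_mem _ (pmono M Set.sdiff_subset hb) (pmono M Set.sdiff_subset hc))
      · rw [map_mul, map_inv, map_mul, eb, ec, ← e, inv_mul_cancel]
    exact inv_mul_eq_one.1 this

end H48
end Unf
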